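import Pool.Agent.H.MP_269329_co.B

set_option autoImplicit false
open MeasureTheory Filter Topology Pool.Agent.H.MP_269329_co

namespace Pool.Agent.Results.MP_269329_co.No

theorem result : ∃ U : Set (Fin 3 → ℂ), IsOpen U ∧ 0 < volume U ∧ ∀ z ∈ U,
    ¬ ∃ C : ℝ, ∀ n : ℕ, ∑ᶠ x ∈ X 3 n, ‖h z n (-n) x‖ ≤ C * ‖∑ᶠ x ∈ X 3 n, h z n (-n) x‖ := by
  have c : ContinuousAt (fun z : Fin 3 → ℂ => z 2 ^ ((3 : ℕ)⁻¹ : ℂ)) ![1, -1, 1] :=
    (continuous_apply 2).continuousAt.cpow continuousAt_const (by simp)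
  have c0 := ((continuous_apply 0).continuousAt.div c (by simp)).norm.tendsto
  have c1 := (((continuous_apply 1).continuousAt.div (c.pow 2) (by simp)).add_const 1).norm.tendsto
  obtain ⟨U, a, b, d⟩ := eventually_nhds_iff.1 (((c.eventually_ne (y := 0) (by simp)).and
    (c1.eventually_le_const (u := 1 / 50) (by simp))).and ((c0.eventually_const_le (u := 1 / 2)
      (by simp; norm_num)).and (c0.eventually_le_const (u := 2) (by simp))))
  refine ⟨U, b, b.measure_pos _ ⟨_, d⟩, fun z hz ⟨C, hC⟩ => ?_⟩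
  obtain ⟨⟨a0, a1⟩, a2⟩ := a z hz
  obtain ⟨n, n0, p, q⟩ := main z a0 (Complex.cpow_nat_inv_pow _ three_ne_zero).symm a1 a2
    (κ := (2 * (|C| + 1))⁻¹) (by positivity)
  have := hC n
  rw [show X 3 n = Y n from Set.ext fun x => and_iff_right_of_imp fun e =>
    mt (Y_nil e).1 n0.ne', show -(n : ℤ) = n - 2 * n by ring] at this
  change A z n n ≤ C * ‖S z n n‖ at this
  rw [inv_mul_eq_div, le_div_iff₀ (by positivity)] at q
  nlinarith [mul_le_mul_of_nonneg_right (le_abs_self C) (norm_nonneg (S z n n)), norm_nonneg (S z n n)]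

end Pool.Agent.Results.MP_269329_co.No
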